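import Pool.Agent.H575.SD.All

/-!
# A simply connected closed manifold without symplectic structures

There is a simply connected closed manifold of dimension eight which admits an almost complex
structure and a second cohomology class with non-trivial top power, but no symplectic structure.

The manifold is `(S³ × S⁵) # (ℂP⁴ with the opposite orientation)`, that is the complex manifold
`S³ × S⁵` of Calabi and Eckmann, blown up at a point.

`E` is a real normed space, the model space of the manifold `M`.
-/

open scoped ContDiff Manifold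

set_option autoImplicit false

noncomputable section

namespace Pool.Agent.Results.MP_2a78db_gt.AlmostComplexNotSymplectic

section

variable (E : Type) [NormedAddCommGroup E] [NormedSpace ℝ E]
variable (M : Type) [TopologicalSpace M] [ChartedSpace E M]

/-- `M` is a closed smooth manifold of dimension `n`: compact, Hausdorff, second countable, without
boundary (it is modelled on the vector space `E` of dimension `n`). -/
def IsClosedManifold (n : ℕ) : Prop :=
  Module.finrank ℝ E = n ∧ IsManifold 𝓘(ℝ, E) ∞ M ∧ CompactSpace M ∧ T2Space M ∧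
    SecondCountableTopology M

variable {E M}

/-- the change of coordinates from the chart `c` to the chart `d` -/
def chg (c d : atlas E M) : OpenPartialHomeomorph E E := c.1.symm.trans d.1

variable (E M)

/-- A smooth differential `k`-form on `M`: for each chart of the atlas its expression in the
coordinates, smooth on the image of the chart, compatible with all changes of coordinates. -/
structure DiffForm (k : ℕ) where
  /-- the expression of the form in a chart -/
  loc : atlas E M → E → E [⋀^Fin k]→L[ℝ] ℝ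
  smooth : ∀ c, ContDiffOn ℝ ∞ (loc c) c.1.target
  compat : ∀ c d, ∀ y ∈ (chg c d).source,
    loc c y = (loc d (chg c d y)).compContinuousLinearMap (fderiv ℝ (chg c d) y)

/-- An almost complex structure on `M`: a smooth field `J` of endomorphisms of the tangent spaces
with `J² = -1`, given by its expressions in the charts. -/
structure AlmostComplex where
  /-- the expression of the field in a chart -/
  loc : atlas E M → E → E →L[ℝ] E
  smooth : ∀ c, ContDiffOn ℝ ∞ (loc c) c.1.target
  sq : ∀ c, ∀ y ∈ c.1.target, ∀ u, loc c y (loc c y u) = -u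
  compat : ∀ c d, ∀ y ∈ (chg c d).source, ∀ u,
    fderiv ℝ (chg c d) y (loc c y u) = loc d (chg c d y) (fderiv ℝ (chg c d) y u)

variable {E M}

/-- The form is closed. -/
def DiffForm.Closed {k : ℕ} (w : DiffForm E M k) : Prop :=
  ∀ c, ∀ y ∈ c.1.target, extDeriv (w.loc c) y = 0

/-- The two-form is nondegenerate at every point. -/
def DiffForm.Nondegenerate (w : DiffForm E M 2) : Prop :=
  ∀ c, ∀ y ∈ c.1.target, ∀ u, (∀ v, w.loc c y ![u, v] = 0) → u = 0

/-- `s(u, J u) > 0` for all tangent vectors `u ≠ 0`; so `s` is nondegenerate. -/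
def Tames (s : DiffForm E M 2) (J : AlmostComplex E M) : Prop :=
  ∀ c, ∀ y ∈ c.1.target, ∀ u, u ≠ 0 → 0 < s.loc c y ![u, J.loc c y u]

/-- `∑_σ sgn σ · a(v_σ0, v_σ1) a(v_σ2, v_σ3) a(v_σ4, v_σ5) a(v_σ6, v_σ7)`, that is sixteen times
the value of `a ∧ a ∧ a ∧ a` on `v`. -/
def fourthPower (a : E [⋀^Fin 2]→L[ℝ] ℝ) (v : Fin 8 → E) : ℝ :=
  ∑ σ : Equiv.Perm (Fin 8), (((Equiv.Perm.sign σ : ℤˣ) : ℤ) : ℝ) *
    (a ![v (σ 0), v (σ 1)] * a ![v (σ 2), v (σ 3)] * a ![v (σ 4), v (σ 5)] * a ![v (σ 6), v (σ 7)])

/-- The fourth exterior power of the two-form (times sixteen) is exact: it is the exterior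
derivative of a smooth seven-form. -/
def DiffForm.FourthPowerExact (w : DiffForm E M 2) : Prop :=
  ∃ b : DiffForm E M 7, ∀ c, ∀ y ∈ c.1.target, ∀ v : Fin 8 → E,
    fourthPower (w.loc c y) v = extDeriv (b.loc c) y v

end

open Pool.Agent.TH179.SD in
/-- the form in the notation of the library -/
def toD {M : Type} [TopologicalSpace M] [ChartedSpace (Fin 4 → ℂ) M] {k : ℕ}
    (w : DiffForm (Fin 4 → ℂ) M k) : DForm M k := ⟨w.loc, w.smooth, w.compat⟩

open Pool.Agent.TH179.SD in
/-- the form in the notation of this file -/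
def ofD {M : Type} [TopologicalSpace M] [ChartedSpace (Fin 4 → ℂ) M] {k : ℕ}
    (w : DForm M k) : DiffForm (Fin 4 → ℂ) M k := ⟨w.loc, w.smooth, w.compat⟩

/-- **There is a simply connected closed manifold of dimension `8` with an almost complex structure
`J` (and a nondegenerate two-form `s` tamed by `J`) and with a closed two-form `α` such that
`α ∧ α ∧ α ∧ α` is not exact, but without symplectic structures**: no closed two-form is
nondegenerate at every point. -/
theorem result : ∃ (M : Type) (_ : TopologicalSpace M) (_ : ChartedSpace (Fin 4 → ℂ) M),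
    IsClosedManifold (Fin 4 → ℂ) M 8 ∧ SimplyConnectedSpace M ∧
    (∃ (J : AlmostComplex (Fin 4 → ℂ) M) (s : DiffForm (Fin 4 → ℂ) M 2),
      Tames s J ∧ s.Nondegenerate) ∧
    (∃ α : DiffForm (Fin 4 → ℂ) M 2, α.Closed ∧ ¬ α.FourthPowerExact) ∧
    ¬ ∃ w : DiffForm (Fin 4 → ℂ) M 2, w.Closed ∧ w.Nondegenerate := by
  obtain ⟨M, tM, cM, hM, hC, hT, hSC, ⟨J, s, hs⟩, ⟨α, hα, hα'⟩, hno⟩ := H575.SD.main
  refine ⟨M, tM, cM, ⟨?_, hM, hC, hT, ?_⟩, hSC, ?_, ⟨ofD α, hα, ?_⟩, ?_⟩
  · rw [Module.finrank_pi_fintype]
    simp [Complex.finrank_real_complex]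
  · exact ChartedSpace.secondCountable_of_sigmaCompact (Fin 4 → ℂ) M
  · refine ⟨⟨J.loc, J.smooth, J.sq, J.compat⟩, ofD s, hs, fun c y hy u hu => ?_⟩
    by_contra hne
    exact (hs c y hy u hne).ne' (hu _)
  · rintro ⟨b, hb⟩
    exact hα' ⟨toD b, hb⟩
  · rintro ⟨w, hwc, hwn⟩
    exact hno ⟨toD w, hwc, hwn⟩

end Pool.Agent.Results.MP_2a78db_gt.AlmostComplexNotSymplectic
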